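import Pool.Agent.Lib.MP_688fd0_co.TE.Iface2

/-!
# Theorem E, module WLK: the law of the link walk

Paths are summed by `sum_path`; marks at two times are inserted by modifying two kernels
(`mkc`), which gives the law of two marked positions (`two_marks`).
-/

namespace Pool.Agent.Lib.MP_688fd0_co.TE.H43

section gen

variable {G : Type*} [Fintype G] [DecidableEq G]

theorem kn_congr (c c' : ℕ → Matrix G G ℝ) (i n : ℕ)
    (h : ∀ p, i < p → p ≤ i + n → c p = c' p) : Kn c i n = Kn c' i n := by
  induction n with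
  | zero => rfl
  | succ n ih =>
    simp only [Kn]
    rw [ih (fun p h1 h2 => h p h1 (by omega)), h (i + n + 1) (by omega) (by omega)]

theorem kn_add (c : ℕ → Matrix G G ℝ) (i m n : ℕ) :
    Kn c i (m + n) = Kn c i m * Kn c (i + m) n := by
  induction n with
  | zero => simp [Kn]
  | succ n ih =>
    rw [← Nat.add_assoc]
    simp only [Kn]
    rw [ih, Matrix.mul_assoc, Nat.add_assoc i m n]

/-- Sum over all paths with given endpoints. -/
theorem sum_path (c : ℕ → Matrix G G ℝ) (n : ℕ) (x y : G) :
    ∑ z : Fin (n + 1) → G, ind (z 0 = x ∧ z (Fin.last n) = y) *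
      ∏ i : Fin n, c (i + 1) (z i.castSucc) (z i.succ) = Kn c 0 n x y := by
  induction n generalizing y with
  | zero =>
    simp only [Finset.univ_eq_empty, Finset.prod_empty, mul_one, Kn]
    rw [← Equiv.sum_comp (Equiv.funUnique (Fin 1) G).symm]
    simp only [Equiv.funUnique_symm_apply, uniqueElim_const, Fin.last, Matrix.one_apply]
    by_cases hxy : x = y
    · subst hxy
      rw [if_pos rfl, Finset.sum_eq_single x]
      · exact ind_of ⟨rfl, rfl⟩
      · intro a _ ha
        exact ind_not (fun h => ha h.1)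
      · intro h; exact absurd (Finset.mem_univ x) h
    · rw [if_neg hxy]
      apply Finset.sum_eq_zero
      intro a _
      exact ind_not (fun h => hxy (h.1.symm.trans h.2))
  | succ n ih =>
    rw [← Equiv.sum_comp (Fin.snocEquiv (fun _ => G)), Fintype.sum_prod_type]
    have hstep : ∀ (a : G) (z : Fin (n + 1) → G),
        ind ((Fin.snocEquiv (fun _ => G)) (a, z) 0 = x ∧
          (Fin.snocEquiv (fun _ => G)) (a, z) (Fin.last (n + 1)) = y) *
        ∏ i : Fin (n + 1), c (i + 1) ((Fin.snocEquiv (fun _ => G)) (a, z) i.castSucc)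
          ((Fin.snocEquiv (fun _ => G)) (a, z) i.succ) =
        ind (a = y) * ∑ w : G, (ind (z 0 = x ∧ z (Fin.last n) = w) *
          ∏ i : Fin n, c (i + 1) (z i.castSucc) (z i.succ)) * c (n + 1) w a := by
      intro a z
      have e0 : (Fin.snocEquiv (fun _ => G)) (a, z) 0 = z 0 := by
        rw [← Fin.castSucc_zero]
        simp [Fin.snocEquiv]
      have e1 : (Fin.snocEquiv (fun _ => G)) (a, z) (Fin.last (n + 1)) = a := by
        simp [Fin.snocEquiv]
      have e2 : ∀ i : Fin (n + 1), (Fin.snocEquiv (fun _ => G)) (a, z) i.castSucc = z i := by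
        intro i
        simp [Fin.snocEquiv]
      rw [Finset.sum_eq_single (z (Fin.last n)), Fin.prod_univ_castSucc, e0, e1, ind_and]
      · have e3 : ∀ i : Fin n, (Fin.snocEquiv (fun _ => G)) (a, z) i.castSucc.succ = z i.succ := by
          intro i
          rw [Fin.succ_castSucc]
          exact e2 _
        simp only [e2, e3, Fin.succ_last, e1, Fin.val_castSucc, Fin.val_last]
        rw [ind_and, ind_of trivial]
        ring
      · intro w _ hw
        rw [ind_not (fun h => hw h.2.symm)]
        ring
      · intro h; exact absurd (Finset.mem_univ _) h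
    simp only [hstep]
    rw [Finset.sum_eq_single y]
    · simp only [ind_of, one_mul]
      rw [Finset.sum_comm]
      simp only [← Finset.sum_mul, ih]
      simp only [Kn, Matrix.mul_apply, zero_add]
    · intro a _ ha
      simp only [ind_not ha, zero_mul, Finset.sum_const_zero]
    · intro h; exact absurd (Finset.mem_univ _) h

/-- The kernels with marks: the path is at `v` at time `i` and at `w` at time `j`. -/
noncomputable def mkc (c : ℕ → Matrix G G ℝ) (i j : ℕ) (v w : G) : ℕ → Matrix G G ℝ :=
  fun p a b => (if p = i + 1 then ind (a = v) else 1) * c p a b *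
    (if p = j then ind (b = w) else 1)

omit [Fintype G] [DecidableEq G] in
theorem mkc_free (c : ℕ → Matrix G G ℝ) (i j : ℕ) (v w : G) (p : ℕ) (h1 : p ≠ i + 1)
    (h2 : p ≠ j) : mkc c i j v w p = c p := by
  ext a b
  simp [mkc, h1, h2]

omit [Fintype G] [DecidableEq G] in
theorem prod_mkc (c : ℕ → Matrix G G ℝ) (n i j : ℕ) (hij : i < j) (hj : j < n + 1) (v w : G)
    (z : Fin (n + 1) → G) :
    ∏ t : Fin n, mkc c i j v w (t + 1) (z t.castSucc) (z t.succ) =
      ind (z ⟨i, by omega⟩ = v ∧ z ⟨j, hj⟩ = w) *
        ∏ t : Fin n, c (t + 1) (z t.castSucc) (z t.succ) := by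
  unfold mkc
  rw [Finset.prod_mul_distrib, Finset.prod_mul_distrib]
  have h1 : ∏ t : Fin n, (if (t : ℕ) + 1 = i + 1 then ind (z t.castSucc = v) else 1) =
      ind (z ⟨i, by omega⟩ = v) := by
    rw [Finset.prod_eq_single (⟨i, by omega⟩ : Fin n)]
    · simp
    · intro t _ ht
      rw [if_neg]
      intro h
      apply ht
      apply Fin.ext
      simpa using h
    · intro h; exact absurd (Finset.mem_univ _) h
  have h2 : ∏ t : Fin n, (if (t : ℕ) + 1 = j then ind (z t.succ = w) else 1) =
      ind (z ⟨j, hj⟩ = w) := by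
    rw [Finset.prod_eq_single (⟨j - 1, by omega⟩ : Fin n)]
    · have h3 : (⟨j - 1, by omega⟩ : Fin n).succ = ⟨j, hj⟩ := by
        apply Fin.ext
        simp only [Fin.val_succ]
        omega
      rw [if_pos (by simp only []; omega), h3]
    · intro t _ ht
      rw [if_neg]
      intro h
      apply ht
      apply Fin.ext
      simp only []
      omega
    · intro h; exact absurd (Finset.mem_univ _) h
  rw [h1, h2, ind_and]
  ring

theorem kn_mkc (c : ℕ → Matrix G G ℝ) (i m : ℕ) (v w a b : G) :
    Kn (mkc c i (i + m + 1) v w) i (m + 1) a b =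
      ind (a = v) * Kn c i (m + 1) a b * ind (b = w) := by
  have hL : ∀ (l : ℕ), l ≤ m → ∀ a b, Kn (mkc c i (i + m + 1) v w) i l a b *
      (if l = 0 then ind (a = v) else 1) = ind (a = v) * Kn c i l a b := by
    intro l
    induction l with
    | zero =>
      intro _ a b
      simp only [Kn, if_true]
      ring
    | succ l ih =>
      intro hl a b
      have ih' := ih (by omega)
      rw [if_neg (by omega), mul_one]
      simp only [Kn, Matrix.mul_apply]
      rw [Finset.mul_sum]
      apply Finset.sum_congr rfl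
      intro t _
      have h := ih' a t
      by_cases h0 : l = 0
      · subst h0
        simp only [Kn, Matrix.one_apply, if_true] at h ⊢
        by_cases hat : a = t
        · subst hat
          simp only [mkc, if_true, add_zero]
          rw [if_neg (show i + 1 ≠ i + m + 1 by omega)]
          ring
        · simp [hat]
      · rw [if_neg h0, mul_one] at h
        rw [h, mkc_free c i (i + m + 1) v w (i + l + 1) (by omega) (by omega)]
        ring
  simp only [Kn, Matrix.mul_apply]
  rw [Finset.mul_sum, Finset.sum_mul]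
  apply Finset.sum_congr rfl
  intro t _
  have h := hL m le_rfl a t
  by_cases h0 : m = 0
  · subst h0
    simp only [Kn, Matrix.one_apply, if_true] at h ⊢
    by_cases hat : a = t
    · subst hat
      simp [mkc]
    · simp [hat]
  · rw [if_neg h0, mul_one] at h
    rw [h]
    simp only [mkc]
    rw [if_neg (show i + m + 1 ≠ i + 1 by omega), if_pos trivial]
    ring

/-- The weight of the paths with two marks. -/
theorem two_marks (c : ℕ → Matrix G G ℝ) (n i j : ℕ) (hij : i < j) (hj : j < n + 1)
    (x y v w : G) :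
    ∑ z : Fin (n + 1) → G, ind (z 0 = x ∧ z (Fin.last n) = y) *
      (∏ t : Fin n, c (t + 1) (z t.castSucc) (z t.succ)) *
        ind (z ⟨i, by omega⟩ = v ∧ z ⟨j, hj⟩ = w) =
      Kn c 0 i x v * Kn c i (j - i) v w * Kn c j (n - j) w y := by
  have h1 : ∀ z : Fin (n + 1) → G, ind (z 0 = x ∧ z (Fin.last n) = y) *
      (∏ t : Fin n, c (t + 1) (z t.castSucc) (z t.succ)) *
        ind (z ⟨i, by omega⟩ = v ∧ z ⟨j, hj⟩ = w) =
      ind (z 0 = x ∧ z (Fin.last n) = y) *
        ∏ t : Fin n, mkc c i j v w (t + 1) (z t.castSucc) (z t.succ) := by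
    intro z
    rw [prod_mkc c n i j hij hj]
    ring
  simp only [h1]
  rw [sum_path]
  have e1 : n = i + ((j - i) + (n - j)) := by omega
  have e2 : Kn (mkc c i j v w) 0 n = Kn c 0 i * (Kn (mkc c i j v w) i (j - i) * Kn c j (n - j)) := by
    conv_lhs => rw [e1, kn_add, kn_add]
    rw [Nat.zero_add, show i + (j - i) = j by omega]
    rw [kn_congr (mkc c i j v w) c 0 i (fun p h1 h2 => mkc_free _ _ _ _ _ _ (by omega) (by omega)),
      kn_congr (mkc c i j v w) c j (n - j)
        (fun p h1 h2 => mkc_free _ _ _ _ _ _ (by omega) (by omega))]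
  rw [e2]
  obtain ⟨m, rfl⟩ : ∃ m, j = i + m + 1 := ⟨j - i - 1, by omega⟩
  rw [show i + m + 1 - i = m + 1 by omega]
  simp only [Matrix.mul_apply, kn_mkc]
  rw [Finset.sum_eq_single v]
  · rw [Finset.sum_eq_single w]
    · rw [ind_of rfl, ind_of rfl]
      ring
    · intro t _ ht
      rw [ind_not ht]
      ring
    · intro h; exact absurd (Finset.mem_univ _) h
  · intro t _ ht
    rw [Finset.sum_eq_zero, mul_zero]
    intro s _
    rw [ind_not ht]
    ring
  · intro h; exact absurd (Finset.mem_univ _) h

end gen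

section main

variable {G : Type*} [Group G] [Fintype G] [DecidableEq G]

/-- Two marked times of the link walk. -/
theorem pr_two (c : Ctx G) (τ par : Bool) (x y : G) (i j : ℕ) (hij : i < j)
    (hj : j < c.len par + 1) (v w : G) :
    Pr (c.WL τ par x y) (fun z => z ⟨i, by omega⟩ = v ∧ z ⟨j, hj⟩ = w) =
      c.K τ par 0 i x v * c.K τ par i (j - i) v w * c.K τ par j (c.len par - j) w y /
        c.K τ par 0 (c.len par) x y := by
  unfold Pr Ctx.K
  rw [← two_marks (c.cc τ par) (c.len par) i j hij hj x y v w, Finset.sum_div]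
  apply Finset.sum_congr rfl
  intro z _
  unfold Ctx.WL Ctx.K
  ring

omit [Group G] [Fintype G] [DecidableEq G] in
theorem pr_congr {Ω : Type*} [Fintype Ω] (μ : Ω → ℝ) (E F : Ω → Prop)
    (h : ∀ ω, μ ω ≠ 0 → (E ω ↔ F ω)) : Pr μ E = Pr μ F := by
  unfold Pr
  apply Finset.sum_congr rfl
  intro ω _
  by_cases h0 : μ ω = 0
  · simp [h0]
  · rw [show E ω = F ω from propext (h ω h0)]

theorem wl_ne (c : Ctx G) (τ par : Bool) (x y : G) (z : Fin (c.len par + 1) → G)
    (h : c.WL τ par x y z ≠ 0) : z 0 = x ∧ z (Fin.last _) = y := by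
  by_contra hn
  apply h
  unfold Ctx.WL
  rw [ind_not hn]
  simp

omit [Group G] in
theorem ind_sum (a b : G) : ind (a = b) = ∑ v : G, ind (a = v ∧ b = v) := by
  by_cases h : a = b
  · subst h
    rw [Finset.sum_eq_single a, ind_of rfl, ind_of ⟨rfl, rfl⟩]
    · intro v _ hv
      exact ind_not (fun h => hv h.1.symm)
    · intro h; exact absurd (Finset.mem_univ _) h
  · rw [ind_not h]
    symm
    apply Finset.sum_eq_zero
    intro v _
    exact ind_not (fun h' => h (h'.1.trans h'.2.symm))

/-- Module WLK. -/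
theorem wlk.{u} (h1 : KER_S.{u}) (h2 : NUM_S.{u}) : WLK_S.{u} := by
  intro G _ _ _ c τ par x y hadm
  obtain ⟨kDS, kadd, kb2, kX, kb0, kbe, kcc, kccDS, kadm, -, -⟩ := h1 G c τ par
  obtain ⟨nX, -, -, nL, -, nk, nq, nb, -, -, -, -, -, -⟩ := h2 G c
  have hlen : 6 * c.k ≤ c.len par := by
    unfold Ctx.len; split <;> omega
  have hlen2 : c.len par ≤ 6 * c.k + 1 := by
    unfold Ctx.len; split <;> omega
  have hr := c.hr1
  have hL4 : 4 * c.L0 ≤ c.k := by
    have : 6 * 2 * c.L0 ≤ 6 * (c.r0 + 1) * c.L0 := by
      apply Nat.mul_le_mul_right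
      omega
    omega
  have hq := nq τ
  have hX0 : 0 < c.X := by linarith
  have hKq : (9 / 10 : ℝ) * c.q τ ≤ c.K τ par 0 (c.len par) x y := kadm x y hadm
  have hK0 : 0 < c.K τ par 0 (c.len par) x y := by
    linarith [mul_pos (by norm_num : (0:ℝ) < 9 / 10) hq]
  have hK1 : ∀ i v w, c.K τ par i 0 v w = if v = w then 1 else 0 := by
    intro i v w
    simp only [Ctx.K, Kn, Matrix.one_apply]
  -- the quotient by `K(x,y)`
  have hquo : ∀ A : ℝ, 0 ≤ A → c.X * c.q τ * A / c.K τ par 0 (c.len par) x y ≤ 2 * c.X * A := by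
    intro A hA
    rw [div_le_iff₀ hK0]
    have : 2 * c.X * A * ((9 / 10 : ℝ) * c.q τ) ≤ 2 * c.X * A * c.K τ par 0 (c.len par) x y :=
      mul_le_mul_of_nonneg_left hKq (by positivity)
    have h4 : 0 ≤ c.X * A * c.q τ := by positivity
    nlinarith
  have hsum : ∑ z, c.WL τ par x y z = 1 := by
    unfold Ctx.WL
    rw [← Finset.sum_div, sum_path]
    exact div_self hK0.ne'
  have hnn : ∀ z, 0 ≤ c.WL τ par x y z := by
    intro z
    unfold Ctx.WL
    apply div_nonneg (mul_nonneg (ind_nonneg _) _) hK0.le
    apply Finset.prod_nonneg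
    intro i _
    exact (kccDS _).nn _ _
  have h3 : ∀ (j : ℕ) (hj : j < c.len par + 1) (v : G),
      Pr (c.WL τ par x y) (fun z => z ⟨j, hj⟩ = v) =
        c.K τ par 0 j x v * c.K τ par j (c.len par - j) v y / c.K τ par 0 (c.len par) x y := by
    intro j hj v
    rcases Nat.lt_or_ge j (c.len par) with hlt | hge
    · have := pr_two c τ par x y j (c.len par) hlt (Nat.lt_succ_self _) v y
      rw [Nat.sub_self, hK1, if_pos rfl, mul_one] at this
      rw [← this]
      apply pr_congr
      intro z hz
      have := wl_ne c τ par x y z hz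
      exact ⟨fun h => ⟨h, this.2⟩, fun h => h.1⟩
    · have hjj : j = c.len par := by omega
      subst hjj
      rw [Nat.sub_self, hK1]
      by_cases hv : v = y
      · subst hv
        rw [if_pos rfl, mul_one, div_self hK0.ne', ← hsum]
        unfold Pr
        apply Finset.sum_congr rfl
        intro z _
        by_cases h0 : c.WL τ par x v z = 0
        · rw [h0]; ring
        · have := wl_ne c τ par x v z h0
          rw [ind_of (show z ⟨c.len par, hj⟩ = v from this.2), mul_one]
      · rw [if_neg hv, mul_zero, zero_div]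
        unfold Pr
        apply Finset.sum_eq_zero
        intro z _
        by_cases h0 : c.WL τ par x y z = 0
        · rw [h0]; ring
        · have := wl_ne c τ par x y z h0
          rw [ind_not, mul_zero]
          intro h
          exact hv (h.symm.trans this.2)
  have h4 : ∀ (j : ℕ) (hj : j < c.len par + 1) (v : G), j ≤ 4 * c.k →
      Pr (c.WL τ par x y) (fun z => z ⟨j, hj⟩ = v) ≤ 2 * c.X * c.K τ par 0 j x v := by
    intro j hj v hj4
    rw [h3 j hj v]
    have e1 := kX j (c.len par - j) v y (by omega)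
    have e2 : 0 ≤ c.K τ par 0 j x v := (kDS 0 j).1.nn _ _
    refine le_trans ?_ (hquo _ e2)
    apply div_le_div_of_nonneg_right _ hK0.le
    nlinarith [mul_le_mul_of_nonneg_left e1 e2]
  have h5 : ∀ (j : ℕ) (hj : j < c.len par + 1) (v : G), 2 * c.k ≤ j →
      Pr (c.WL τ par x y) (fun z => z ⟨j, hj⟩ = v) ≤
        2 * c.X * c.K τ par j (c.len par - j) v y := by
    intro j hj v hj4
    rw [h3 j hj v]
    have e1 := kX 0 j x v (by omega)
    have e2 : 0 ≤ c.K τ par j (c.len par - j) v y := (kDS _ _).1.nn _ _
    refine le_trans ?_ (hquo _ e2)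
    apply div_le_div_of_nonneg_right _ hK0.le
    nlinarith [mul_le_mul_of_nonneg_right e1 e2]
  have h6 : ∀ (j : ℕ) (hj : j < c.len par + 1) (v : G), 0 < j → j < c.len par →
      Pr (c.WL τ par x y) (fun z => z ⟨j, hj⟩ = v) ≤ 2 * c.X / c.b := by
    intro j hj v hj0 hj1
    rcases Nat.lt_or_ge (4 * c.k) j with hlt | hge
    · refine (h5 j hj v (by omega)).trans ?_
      have := kbe j (c.len par - j) v y (by omega) (by omega)
      calc 2 * c.X * c.K τ par j (c.len par - j) v y ≤ 2 * c.X * (1 / c.b) :=
            mul_le_mul_of_nonneg_left this (by positivity)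
        _ = 2 * c.X / c.b := by ring
    · refine (h4 j hj v hge).trans ?_
      have := kb0 j x v (by omega)
      calc 2 * c.X * c.K τ par 0 j x v ≤ 2 * c.X * (1 / c.b) :=
            mul_le_mul_of_nonneg_left this (by positivity)
        _ = 2 * c.X / c.b := by ring
  refine ⟨⟨hnn, hsum⟩, ?_, h3, h4, h5, h6, ?_⟩
  · intro j hj v v'
    rw [pr_two c τ par x y j (j + 1) (Nat.lt_succ_self j) (by omega) v v']
    unfold Ctx.U
    have e1 : c.K τ par j (j + 1 - j) = c.cc τ par (j + 1) := by
      rw [Nat.add_sub_cancel_left]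
      simp [Ctx.K, Kn]
    rw [e1, show c.len par - (j + 1) = c.len par - 1 - j by omega]
  · intro i j hi hj hij hne
    have e0 : Pr (c.WL τ par x y) (fun z => z ⟨i, hi⟩ = z ⟨j, hj⟩) =
        ∑ v, Pr (c.WL τ par x y) (fun z => z ⟨i, hi⟩ = v ∧ z ⟨j, hj⟩ = v) := by
      unfold Pr
      rw [Finset.sum_comm]
      apply Finset.sum_congr rfl
      intro z _
      rw [← Finset.mul_sum, ← ind_sum]
    rw [e0]
    simp only [pr_two c τ par x y i j hij hj]
    rw [← Finset.sum_div]
    -- the diagonal entry does not depend on the vertex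
    obtain ⟨κ, hκ⟩ : ∃ κ, κ = c.K τ par i (j - i) 1 1 := ⟨_, rfl⟩
    have e1 : ∀ v, c.K τ par i (j - i) v v = κ := by
      intro v
      have := (kDS i (j - i)).2 v 1 1
      rw [mul_one] at this
      rw [hκ, this]
    have hκ0 : 0 ≤ κ := by rw [hκ]; exact (kDS _ _).1.nn _ _
    have hκb : κ ≤ 1 / c.b := by
      rcases Nat.lt_or_ge (j - i) 2 with h2 | h2
      · have h21 : j - i = 1 := by omega
        have : κ = 0 := by
          rw [hκ, h21]
          simp only [Ctx.K, Kn, one_mul, add_zero]
          have hU : ∀ S : Finset G, (1 : G) ∉ S → UM S 1 1 = 0 := by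
            intro S hS
            unfold UM
            rw [ind_not (by simpa using hS), zero_div]
          rcases kcc (i + 0 + 1) with h | h
          · rw [show i + 0 + 1 = i + 1 from rfl] at h
            rw [h]; exact hU _ c.hB1
          · rw [show i + 0 + 1 = i + 1 from rfl] at h
            rw [h]
            unfold WM
            split
            · simp [hU _ c.hB1, hU _ c.hC1]
            · exact hU _ c.hB1
        rw [this]
        positivity
      · rw [hκ]; exact kb2 _ _ _ _ h2
    have hrow : ∀ v, 0 ≤ c.K τ par 0 i x v := fun v => (kDS _ _).1.nn _ _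
    have hcol : ∀ v, 0 ≤ c.K τ par j (c.len par - j) v y := fun v => (kDS _ _).1.nn _ _
    have srow : ∑ v, c.K τ par 0 i x v = 1 := (kDS _ _).1.row _
    have scol : ∑ v, c.K τ par j (c.len par - j) v y = 1 := (kDS _ _).1.col _
    have hb1 : 0 ≤ 1 / c.b := by positivity
    have hXq : 0 ≤ c.X * c.q τ := by positivity
    have key : ∑ v, c.K τ par 0 i x v * c.K τ par i (j - i) v v *
        c.K τ par j (c.len par - j) v y ≤ c.X * c.q τ * (1 / c.b) := by
      simp only [e1]
      -- bound with the first factor bounded by `A`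
      have bl : ∀ A : ℝ, (∀ v, c.K τ par 0 i x v ≤ A) →
          ∑ v, c.K τ par 0 i x v * κ * c.K τ par j (c.len par - j) v y ≤ A * κ := by
        intro A hA
        calc ∑ v, c.K τ par 0 i x v * κ * c.K τ par j (c.len par - j) v y
            ≤ ∑ v, A * κ * c.K τ par j (c.len par - j) v y := by
              apply Finset.sum_le_sum
              intro v _
              exact mul_le_mul_of_nonneg_right (mul_le_mul_of_nonneg_right (hA v) hκ0) (hcol v)
          _ = A * κ := by rw [← Finset.mul_sum, scol, mul_one]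
      have br : ∀ A : ℝ, (∀ v, c.K τ par j (c.len par - j) v y ≤ A) →
          ∑ v, c.K τ par 0 i x v * κ * c.K τ par j (c.len par - j) v y ≤ A * κ := by
        intro A hA
        calc ∑ v, c.K τ par 0 i x v * κ * c.K τ par j (c.len par - j) v y
            ≤ ∑ v, c.K τ par 0 i x v * (κ * A) := by
              apply Finset.sum_le_sum
              intro v _
              rw [mul_assoc]
              exact mul_le_mul_of_nonneg_left (mul_le_mul_of_nonneg_left (hA v) hκ0) (hrow v)
          _ = A * κ := by rw [← Finset.sum_mul, srow, one_mul, mul_comm]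
      rcases Nat.lt_or_ge i c.L0 with hi0 | hi0
      · rcases Nat.lt_or_ge (c.len par - j) c.L0 with hj0 | hj0
        · have hκX : κ ≤ c.X * c.q τ := by
            rw [hκ]; exact kX _ _ _ _ (by omega)
          have fin : (1 / c.b) * κ ≤ c.X * c.q τ * (1 / c.b) := by
            rw [mul_comm]
            exact mul_le_mul_of_nonneg_right hκX hb1
          rcases Nat.eq_zero_or_pos i with hi1 | hi1
          · have hj1 : j ≠ c.len par := fun h => hne ⟨hi1, h⟩
            exact (br (1 / c.b) (fun v => kbe _ _ _ _ (by omega) (by omega))).trans fin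
          · exact (bl (1 / c.b) (fun v => kb0 _ _ _ hi1)).trans fin
        · exact (br (c.X * c.q τ) (fun v => kX _ _ _ _ hj0)).trans
            (mul_le_mul_of_nonneg_left hκb hXq)
      · exact (bl (c.X * c.q τ) (fun v => kX _ _ _ _ hi0)).trans
          (mul_le_mul_of_nonneg_left hκb hXq)
    calc (∑ v, c.K τ par 0 i x v * c.K τ par i (j - i) v v *
        c.K τ par j (c.len par - j) v y) / c.K τ par 0 (c.len par) x y
        ≤ c.X * c.q τ * (1 / c.b) / c.K τ par 0 (c.len par) x y :=
          div_le_div_of_nonneg_right key hK0.le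
      _ ≤ 2 * c.X * (1 / c.b) := hquo _ hb1
      _ = 2 * c.X / c.b := by ring

end main

end Pool.Agent.Lib.MP_688fd0_co.TE.H43
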